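import Pool.Agent.Q110.OC.Cay

set_option autoImplicit false

/-!
Oriented cycle double covers from consistent cycles; the main theorem on graphs with a
vertex-transitive group acting semiregularly on the arcs.
-/

namespace Pool.Agent.Q110.OC

open Finset
open Pool.Agent.TH505.OCDC

variable {V : Type} [Fintype V]

lemma sum_ind_card (P : V → Prop) : ∑ w, ind (P w) = Nat.card {w // P w} := by
  classical
  rw [Nat.card_eq_fintype_card, Fintype.card_subtype, Finset.card_filter]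
  apply Finset.sum_congr rfl
  intro w _
  by_cases h : P w
  · rw [ind_pos h, if_pos h]
  · rw [ind_neg h, if_neg h]

/-- the degree of a relation -/
noncomputable def dg (D : V → V → Prop) (x : V) : ℕ := ∑ w, ind (D x w)

lemma dg_inv (D : V → V → Prop) (σ : Equiv.Perm V) (h : ∀ x y, D (σ x) (σ y) ↔ D x y) (x : V) :
    dg D (σ x) = dg D x := by
  unfold dg
  rw [← Equiv.sum_comp σ]
  exact Finset.sum_congr rfl (fun w _ => ind_congr (h x w))

/-- If all degrees are odd, some arc is reversed by an element of the transitive group `A`. -/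
theorem self_paired (H : SimpleGraph V) (A : Subgroup (Equiv.Perm V))
    (hA : ∀ σ ∈ A, ∀ u v, H.Adj u v → H.Adj (σ u) (σ v)) (htr : ∀ u v, ∃ σ ∈ A, σ u = v)
    (v0 : V) (hodd : Odd (dg H.Adj v0)) :
    ∃ u, H.Adj v0 u ∧ ∃ t ∈ A, t v0 = u ∧ t u = v0 := by
  classical
  by_contra hcon
  push Not at hcon
  -- no arc is reversed
  have hno : ∀ x y, H.Adj x y → ∀ t ∈ A, ¬ (t x = y ∧ t y = x) := by
    rintro x y hxy t ht ⟨h1, h2⟩
    obtain ⟨σ, hσ, hx⟩ := htr v0 x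
    have hσi : σ⁻¹ ∈ A := A.inv_mem hσ
    have e1 : σ⁻¹ x = v0 := by rw [← hx]; simp
    have hadj : H.Adj v0 (σ⁻¹ y) := by
      have := hA _ hσi _ _ hxy
      rwa [e1] at this
    refine hcon _ hadj (σ⁻¹ * t * σ) (A.mul_mem (A.mul_mem hσi ht) hσ) ?_ ?_
    · simp only [Equiv.Perm.mul_apply, hx, h1]
    · have e2 : σ (σ⁻¹ y) = y := by simp
      rw [Equiv.Perm.mul_apply, Equiv.Perm.mul_apply, e2, h2, e1]
  let st : Setoid (V × V) :=
    { r := fun p q => ∃ σ ∈ A, σ p.1 = q.1 ∧ σ p.2 = q.2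
      iseqv :=
        { refl := fun p => ⟨1, A.one_mem, rfl, rfl⟩
          symm := by
            rintro p q ⟨σ, hσ, h1, h2⟩
            exact ⟨σ⁻¹, A.inv_mem hσ, by rw [← h1]; simp, by rw [← h2]; simp⟩
          trans := by
            rintro p q r ⟨σ, hσ, h1, h2⟩ ⟨τ, hτ, h3, h4⟩
            exact ⟨τ * σ, A.mul_mem hτ hσ, by rw [Equiv.Perm.mul_apply, h1, h3],
              by rw [Equiv.Perm.mul_apply, h2, h4]⟩ } }
  let mk : V × V → Quotient st := fun p => Quotient.mk st p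
  let D : V → V → Prop := fun x y => H.Adj x y ∧ WellOrderingRel (mk (x, y)) (mk (y, x))
  have hmk : ∀ σ ∈ A, ∀ x y, mk (σ x, σ y) = mk (x, y) := by
    intro σ hσ x y
    apply Quotient.sound
    exact ⟨σ⁻¹, A.inv_mem hσ, by simp, by simp⟩
  have hneq : ∀ x y, H.Adj x y → mk (x, y) ≠ mk (y, x) := by
    intro x y hxy h
    obtain ⟨σ, hσ, h1, h2⟩ := Quotient.exact h
    exact hno x y hxy σ hσ ⟨h1, h2⟩
  have hAiff : ∀ σ ∈ A, ∀ x y, H.Adj (σ x) (σ y) ↔ H.Adj x y := by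
    intro σ hσ x y
    refine ⟨fun h => ?_, hA σ hσ x y⟩
    have := hA _ (A.inv_mem hσ) _ _ h
    simpa using this
  have hDinv : ∀ σ ∈ A, ∀ x y, D (σ x) (σ y) ↔ D x y := by
    intro σ hσ x y
    show (H.Adj _ _ ∧ WellOrderingRel _ _) ↔ _
    rw [hmk σ hσ, hmk σ hσ, hAiff σ hσ]
  let D' : V → V → Prop := fun x y => D y x
  have hsplit : ∀ x y, ind (H.Adj x y) = ind (D x y) + ind (D' x y) := by
    intro x y
    by_cases h : H.Adj x y
    · rw [ind_pos h]
      rcases trichotomous_of WellOrderingRel (mk (x, y)) (mk (y, x)) with h1 | h1 | h1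
      · rw [ind_pos ⟨h, h1⟩, ind_neg]
        rintro ⟨_, h2⟩
        exact asymm_of WellOrderingRel h1 h2
      · exact absurd h1 (hneq x y h)
      · rw [ind_neg, ind_pos ⟨h.symm, h1⟩]
        rintro ⟨_, h2⟩
        exact asymm_of WellOrderingRel h1 h2
    · rw [ind_neg h, ind_neg (fun h' => h h'.1), ind_neg (fun h' => h h'.1.symm)]
  have hd : dg H.Adj v0 = dg D v0 + dg D' v0 := by
    unfold dg
    rw [← Finset.sum_add_distrib]
    exact Finset.sum_congr rfl (fun w _ => hsplit v0 w)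
  have hc1 : ∀ x, dg D x = dg D v0 := by
    intro x
    obtain ⟨σ, hσ, hx⟩ := htr v0 x
    rw [← hx]
    exact dg_inv D σ (hDinv σ hσ) v0
  have hc2 : ∀ x, dg D' x = dg D' v0 := by
    intro x
    obtain ⟨σ, hσ, hx⟩ := htr v0 x
    rw [← hx]
    exact dg_inv D' σ (fun a b => hDinv σ hσ b a) v0
  have hs : ∑ x, dg D x = ∑ x, dg D' x := by
    unfold dg
    rw [Finset.sum_comm]
  rw [Finset.sum_congr rfl (fun x _ => hc1 x), Finset.sum_congr rfl (fun x _ => hc2 x),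
    Finset.sum_const, Finset.sum_const, smul_eq_mul, smul_eq_mul] at hs
  have hpos : 0 < (univ : Finset V).card := Finset.card_pos.2 ⟨v0, mem_univ _⟩
  have heq : dg D v0 = dg D' v0 := Nat.eq_of_mul_eq_mul_left hpos hs
  rw [hd, heq] at hodd
  exact (Nat.not_odd_iff_even.2 ⟨_, rfl⟩) hodd

/-- the graph of an orbit of arcs -/
def Orb (A : Subgroup (Equiv.Perm V)) (u v0 : V) (hne : u ≠ v0)
    (ht : ∃ t ∈ A, t v0 = u ∧ t u = v0) : SimpleGraph V where
  Adj x y := ∃ σ ∈ A, σ u = x ∧ σ v0 = y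
  symm := ⟨by
    rintro x y ⟨σ, hσ, h1, h2⟩
    obtain ⟨t, htA, h3, h4⟩ := ht
    exact ⟨σ * t, A.mul_mem hσ htA, by rw [Equiv.Perm.mul_apply, h4, h2],
      by rw [Equiv.Perm.mul_apply, h3, h1]⟩⟩
  loopless := ⟨by
    rintro x ⟨σ, hσ, h1, h2⟩
    exact hne (σ.injective (h1.trans h2.symm))⟩

/-- Consistent cycles form an oriented cycle double cover of the graph of an orbit of arcs. -/
theorem orb_ocdc (A : Subgroup (Equiv.Perm V)) (u v0 : V) (hne : u ≠ v0)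
    (ht : ∃ t ∈ A, t v0 = u ∧ t u = v0)
    (hsr : ∀ σ ∈ A, σ u = u → σ v0 = v0 → σ = 1)
    (h : Equiv.Perm V) (hh : h ∈ A) (h0 : h v0 = v0) (hu : h u ≠ u) :
    Ocdc (Orb A u v0 hne ht) := by
  classical
  obtain ⟨t, htA, ht1, ht2⟩ := id ht
  obtain ⟨g, hg⟩ : ∃ g, g = h * t := ⟨_, rfl⟩
  have hgA : g ∈ A := by rw [hg]; exact A.mul_mem hh htA
  have hgu : g u = v0 := by rw [hg, Equiv.Perm.mul_apply, ht2, h0]
  have hgv : g v0 = h u := by rw [hg, Equiv.Perm.mul_apply, ht1]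
  let O : V → V → Prop := fun x y => ∃ σ ∈ A, σ u = x ∧ σ v0 = y
  have hex : ∀ p : V × V, ∃ q : V × V, (O p.1 p.2 → ∃ σ ∈ A, σ u = p.1 ∧ σ v0 = p.2 ∧
      q = (σ v0, σ (h u))) ∧ (¬ O p.1 p.2 → q = p) := by
    intro p
    by_cases hp : O p.1 p.2
    · obtain ⟨σ, hσ, h1, h2⟩ := hp
      exact ⟨(σ v0, σ (h u)), fun _ => ⟨σ, hσ, h1, h2, rfl⟩, fun hn => absurd ⟨σ, hσ, h1, h2⟩ hn⟩
    · exact ⟨p, fun hn => absurd hn hp, fun _ => rfl⟩
  choose N0 hN1 hN2 using hex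
  have huniq : ∀ σ ∈ A, ∀ τ ∈ A, σ u = τ u → σ v0 = τ v0 → σ = τ := by
    intro σ hσ τ hτ h1 h2
    have := hsr (τ⁻¹ * σ) (A.mul_mem (A.inv_mem hτ) hσ) (by rw [Equiv.Perm.mul_apply, h1]; simp)
      (by rw [Equiv.Perm.mul_apply, h2]; simp)
    rwa [inv_mul_eq_one, eq_comm] at this
  have hNO : ∀ σ ∈ A, N0 (σ u, σ v0) = (σ v0, σ (h u)) := by
    intro σ hσ
    obtain ⟨τ, hτ, h1, h2, h3⟩ := hN1 (σ u, σ v0) ⟨σ, hσ, rfl, rfl⟩
    have : τ = σ := huniq τ hτ σ hσ h1 h2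
    rw [h3, this]
  have hNg : ∀ σ ∈ A, N0 (σ u, σ v0) = ((σ * g) u, (σ * g) v0) := by
    intro σ hσ
    rw [hNO σ hσ, Equiv.Perm.mul_apply, Equiv.Perm.mul_apply, hgu, hgv]
  have hsurj : Function.Surjective N0 := by
    rintro ⟨x, y⟩
    by_cases hq : O x y
    · obtain ⟨σ, hσ, rfl, rfl⟩ := hq
      refine ⟨((σ * g⁻¹) u, (σ * g⁻¹) v0), ?_⟩
      rw [hNg _ (A.mul_mem hσ (A.inv_mem hgA)), inv_mul_cancel_right]
    · exact ⟨(x, y), hN2 (x, y) hq⟩
  let N : Equiv.Perm (V × V) := Equiv.ofBijective N0 ⟨Finite.injective_iff_surjective.2 hsurj, hsurj⟩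
  have hNN : ∀ p, N p = N0 p := fun p => rfl
  obtain ⟨C, c1, c2⟩ := face (G := Orb A u v0 hne ht) O N (fun x y hxy => hxy) (by
      intro p
      rw [hNN]
      by_cases hp : O p.1 p.2
      · obtain ⟨σ, hσ, h1, h2⟩ := hp
        have hp' : p = (σ u, σ v0) := Prod.ext h1.symm h2.symm
        rw [hp', hNg σ hσ]
        exact ⟨fun _ => ⟨σ, hσ, rfl, rfl⟩, fun _ => ⟨σ * g, A.mul_mem hσ hgA, rfl, rfl⟩⟩
      · rw [hN2 p hp])
    (by
      rintro p ⟨σ, hσ, h1, h2⟩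
      have hp' : p = (σ u, σ v0) := Prod.ext h1.symm h2.symm
      rw [hNN, hp', hNO σ hσ])
    (by
      rintro p ⟨σ, hσ, h1, h2⟩
      have hp' : p = (σ u, σ v0) := Prod.ext h1.symm h2.symm
      refine ⟨fun q => ∃ k : ℤ, q = ((σ * g ^ k) u, (σ * g ^ k) v0), ?_, ⟨0, by rw [hp']; simp⟩, ?_⟩
      · intro q
        have hk : ∀ k : ℤ, N ((σ * g ^ k) u, (σ * g ^ k) v0) =
            ((σ * g ^ (k + 1)) u, (σ * g ^ (k + 1)) v0) := by
          intro k
          rw [hNN, hNg _ (A.mul_mem hσ (A.zpow_mem hgA k)), mul_assoc, ← zpow_add_one]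
        constructor
        · rintro ⟨k, hk'⟩
          refine ⟨k - 1, N.injective ?_⟩
          rw [hk', hk, sub_add_cancel]
        · rintro ⟨k, rfl⟩
          exact ⟨k + 1, hk k⟩
      · rintro ⟨k, hk⟩
        rw [hp'] at hk
        have e1 : σ v0 = (σ * g ^ k) u := congrArg Prod.fst hk
        have e2 : σ u = (σ * g ^ k) v0 := congrArg Prod.snd hk
        rw [Equiv.Perm.mul_apply] at e1 e2
        have e3 : v0 = (g ^ k) u := σ.injective e1
        have e4 : u = (g ^ k) v0 := σ.injective e2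
        apply hu
        rw [← hgv]
        calc g v0 = g ((g ^ k) u) := by rw [← e3]
          _ = (g ^ k) (g u) := by
            rw [← Equiv.Perm.mul_apply, ← Equiv.Perm.mul_apply, ← zpow_one_add, add_comm,
              zpow_add_one]
          _ = u := by rw [hgu, ← e4])
  exact ⟨C, c1, fun x y hxy => by rw [c2]; exact ind_pos hxy⟩

end Pool.Agent.Q110.OC
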