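import Pool.Agent.TH505.OCDC.Cover

set_option autoImplicit false

/-!
Oriented cycle double covers: disjoint unions, even graphs, and faces given by a permutation of
the arcs.
-/

namespace Pool.Agent.Q110.OC

open Finset
open Pool.Agent.TH505.OCDC

/-- `G` has an oriented cycle double cover. -/
def Ocdc {V : Type} (G : SimpleGraph V) : Prop :=
  ∃ C : List (Σ v : V, G.Walk v v), (∀ c ∈ C, c.2.IsCycle) ∧ ∀ u v, G.Adj u v → tot C u v = 1

lemma ind_congr {p q : Prop} (h : p ↔ q) : ind p = ind q := by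
  rw [propext h]

lemma dc_map {V W : Type} {G : SimpleGraph V} {H : SimpleGraph W} (f : G →g H)
    (hf : Function.Injective f) {x y : V} (p : G.Walk x y) (u v : V) :
    dc (p.map f) (f u) (f v) = dc p u v := by
  classical
  induction p with
  | nil => simp [dc_nil]
  | cons h p ih => rw [SimpleGraph.Walk.map_cons, dc_cons, dc_cons, ih, hf.eq_iff, hf.eq_iff]

/-- the image of a list of closed walks -/
def mp {V W : Type} {G : SimpleGraph V} {H : SimpleGraph W} (f : G →g H)
    (C : List (Σ v : V, G.Walk v v)) : List (Σ v : W, H.Walk v v) :=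
  C.map (fun c => ⟨f c.1, c.2.map f⟩)

lemma mp_cycle {V W : Type} {G : SimpleGraph V} {H : SimpleGraph W} (f : G →g H)
    (hf : Function.Injective f) {C : List (Σ v : V, G.Walk v v)} (hC : ∀ c ∈ C, c.2.IsCycle) :
    ∀ c ∈ mp f C, c.2.IsCycle := by
  intro c hc
  obtain ⟨d, hd, rfl⟩ := List.mem_map.1 hc
  exact (SimpleGraph.Walk.isCycle_map_iff_of_injective hf).2 (hC d hd)

lemma mp_tot {V W : Type} {G : SimpleGraph V} {H : SimpleGraph W} (f : G →g H)
    (hf : Function.Injective f) (C : List (Σ v : V, G.Walk v v)) (u v : V) :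
    tot (mp f C) (f u) (f v) = tot C u v := by
  induction C with
  | nil => rfl
  | cons c C ih =>
    have : mp f (c :: C) = ⟨f c.1, c.2.map f⟩ :: mp f C := rfl
    rw [this, tot_cons, tot_cons, ih, dc_map f hf]

lemma tot_zero {V : Type} {G : SimpleGraph V} (C : List (Σ v : V, G.Walk v v)) {u v : V}
    (h : ¬ G.Adj u v) : tot C u v = 0 := by
  induction C with
  | nil => rfl
  | cons c C ih =>
    rw [tot_cons, ih, add_zero]
    by_contra h'
    exact h (dc_adj c.2 (Nat.pos_of_ne_zero h'))

lemma Ocdc.iso {V W : Type} {G : SimpleGraph V} {H : SimpleGraph W} (e : G ≃g H) (h : Ocdc G) :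
    Ocdc H := by
  obtain ⟨C, h1, h2⟩ := h
  refine ⟨mp e.toHom C, mp_cycle e.toHom e.injective h1, ?_⟩
  intro u v huv
  have hu : e.toHom (e.symm u) = u := e.apply_symm_apply u
  have hv : e.toHom (e.symm v) = v := e.apply_symm_apply v
  have := mp_tot e.toHom e.injective C (e.symm u) (e.symm v)
  rw [hu, hv] at this
  rw [this]
  exact h2 _ _ (e.symm.map_adj_iff.2 huv)

lemma Ocdc.union {V : Type} {G G1 G2 : SimpleGraph V} (h1 : G1 ≤ G) (h2 : G2 ≤ G)
    (hd : ∀ u v, G.Adj u v → (G1.Adj u v ∧ ¬ G2.Adj u v) ∨ (¬ G1.Adj u v ∧ G2.Adj u v))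
    (o1 : Ocdc G1) (o2 : Ocdc G2) : Ocdc G := by
  obtain ⟨C1, a1, b1⟩ := o1
  obtain ⟨C2, a2, b2⟩ := o2
  have i1 : Function.Injective (SimpleGraph.Hom.ofLE h1) := fun _ _ h => h
  have i2 : Function.Injective (SimpleGraph.Hom.ofLE h2) := fun _ _ h => h
  refine ⟨mp (SimpleGraph.Hom.ofLE h1) C1 ++ mp (SimpleGraph.Hom.ofLE h2) C2, ?_, ?_⟩
  · intro c hc
    rcases List.mem_append.1 hc with hc | hc
    · exact mp_cycle _ i1 a1 c hc
    · exact mp_cycle _ i2 a2 c hc
  · intro u v huv
    rw [tot_append]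
    have e1 : tot (mp (SimpleGraph.Hom.ofLE h1) C1) u v = tot C1 u v :=
      mp_tot (SimpleGraph.Hom.ofLE h1) i1 C1 u v
    have e2 : tot (mp (SimpleGraph.Hom.ofLE h2) C2) u v = tot C2 u v :=
      mp_tot (SimpleGraph.Hom.ofLE h2) i2 C2 u v
    rw [e1, e2]
    rcases hd u v huv with ⟨h, h'⟩ | ⟨h', h⟩
    · rw [b1 u v h, tot_zero C2 h']
    · rw [b2 u v h, tot_zero C1 h']

lemma Ocdc.even {V : Type} [Fintype V] (G : SimpleGraph V)
    (hev : ∀ v, Even (∑ w, ind (G.Adj v w))) : Ocdc G := by
  obtain ⟨g, g1, g2, g3, g4⟩ := orient G _ (fun u v => G.Adj u v) rfl (fun _ _ h => h)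
    (fun _ _ h => h.symm) hev
  have hval : ∀ u v, g u v = 0 ∨ g u v = 1 ∨ g u v = -1 := by
    intro u v
    by_cases h : G.Adj u v
    · exact Or.inr (g2 u v h)
    · exact Or.inl (g3 u v h)
  have hsupp : ∀ u v, g u v ≠ 0 → G.Adj u v := by
    intro u v h
    by_contra h'
    exact h (g3 u v h')
  obtain ⟨C, c1, c2⟩ := flow_decomp (G := G) g g1 hval hsupp g4
  obtain ⟨D, d1, d2⟩ := flow_decomp (G := G) (fun u v => - g u v)
    (fun u v => by simp only [g1 u v]) (fun u v => by
      rcases hval u v with h | h | h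
      · left; simp only [h]; norm_num
      · right; right; simp only [h]
      · right; left; simp only [h]; norm_num)
    (fun u v h => hsupp u v (fun h' => h (by simp only [h']; norm_num)))
    (fun u => by rw [Finset.sum_neg_distrib, g4 u, neg_zero])
  refine ⟨C ++ D, ?_, ?_⟩
  · intro c hc
    rcases List.mem_append.1 hc with hc | hc
    · exact c1 c hc
    · exact d1 c hc
  · intro u v huv
    rw [tot_append, c2, d2]
    rcases g2 u v huv with h | h
    · rw [ind_pos h, ind_neg]
      simp only [h]; norm_num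
    · rw [ind_neg (by rw [h]; norm_num), ind_pos]
      simp only [h]; norm_num

lemma tot_flatMap {V ι : Type} {G : SimpleGraph V} (L : List ι)
    (C : ι → List (Σ v : V, G.Walk v v)) (u v : V) :
    tot (L.flatMap C) u v = (L.map (fun i => tot (C i) u v)).sum := by
  induction L with
  | nil => rfl
  | cons i L ih => rw [List.flatMap_cons, tot_append, ih, List.map_cons, List.sum_cons]

lemma zpow_inv {X : Type} (N : Equiv.Perm X) (P : X → Prop) (hP : ∀ p, P (N p) ↔ P p) (k : ℤ)
    (p : X) : P ((N ^ k) p) ↔ P p := by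
  induction k using Int.induction_on with
  | zero => simp
  | succ n ih =>
    rw [← ih, ← hP ((N ^ (n : ℤ)) p)]
    have : N ((N ^ (n : ℤ)) p) = (N ^ ((n : ℤ) + 1)) p := by
      rw [← Equiv.Perm.mul_apply, ← zpow_one_add, add_comm]
    rw [this]
  | pred n ih =>
    rw [← ih, ← hP ((N ^ (-(n : ℤ) - 1)) p)]
    have : N ((N ^ (-(n : ℤ) - 1)) p) = (N ^ (-(n : ℤ))) p := by
      rw [← Equiv.Perm.mul_apply, ← zpow_one_add]
      congr 2
      ring
    rw [this]

/-- Faces: a permutation `N` of the pairs of vertices which maps every arc of `O` to an arc of `O`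
that starts where the arc ends, such that no arc has its opposite arc in the same cycle of `N`. -/
theorem face {V : Type} [Fintype V] {G : SimpleGraph V} (O : V → V → Prop)
    (N : Equiv.Perm (V × V)) (hO : ∀ u v, O u v → G.Adj u v)
    (hN : ∀ p, O (N p).1 (N p).2 ↔ O p.1 p.2) (h1 : ∀ p, O p.1 p.2 → (N p).1 = p.2)
    (h2 : ∀ p : V × V, O p.1 p.2 → ∃ P : V × V → Prop, (∀ q, P (N q) ↔ P q) ∧ P p ∧ ¬ P p.swap) :
    ∃ C : List (Σ v : V, G.Walk v v), (∀ c ∈ C, c.2.IsCycle) ∧
      ∀ u v, tot C u v = ind (O u v) := by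
  classical
  let Q := Quotient (Equiv.Perm.SameCycle.setoid N)
  let mk : V × V → Q := fun p => Quotient.mk _ p
  have hmkN : ∀ p, mk (N p) = mk p := by
    intro p
    apply Quotient.sound
    show N.SameCycle (N p) p
    exact ⟨-1, by simp⟩
  let R : Q → V → V → Prop := fun q u v => O u v ∧ mk (u, v) = q
  have hex : ∀ q : Q, ∃ C : List (Σ v : V, G.Walk v v), (∀ c ∈ C, c.2.IsCycle) ∧
      ∀ u v, tot C u v = ind (R q u v) := by
    intro q
    apply directed_decomp _ (R q) rfl
    · exact fun u v h => hO u v h.1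
    · rintro u v ⟨ho, hm⟩ ⟨_, hm'⟩
      have hs : N.SameCycle (u, v) (v, u) := Quotient.exact (hm.trans hm'.symm)
      obtain ⟨k, hk⟩ := hs
      obtain ⟨P, hP, hp, hp'⟩ := h2 (u, v) ho
      apply hp'
      have := (zpow_inv N P hP k (u, v)).2 hp
      rw [hk] at this
      exact this
    · intro v
      have A1 : ∑ w, ind (R q v w) = ∑ p : V × V, ind (R q p.1 p.2 ∧ p.1 = v) := by
        rw [Fintype.sum_prod_type]
        symm
        rw [Finset.sum_eq_single v]
        · apply Finset.sum_congr rfl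
          intro w _
          exact ind_congr ⟨fun h => h.1, fun h => ⟨h, rfl⟩⟩
        · intro x _ hx
          apply Finset.sum_eq_zero
          intro w _
          exact ind_neg (fun h => hx h.2)
        · intro h; exact absurd (mem_univ _) h
      have A2 : ∑ w, ind (R q w v) = ∑ p : V × V, ind (R q p.1 p.2 ∧ p.2 = v) := by
        rw [Fintype.sum_prod_type]
        apply Finset.sum_congr rfl
        intro w _
        symm
        rw [Finset.sum_eq_single v]
        · exact ind_congr ⟨fun h => h.1, fun h => ⟨h, rfl⟩⟩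
        · intro x _ hx
          exact ind_neg (fun h => hx h.2)
        · intro h; exact absurd (mem_univ _) h
      rw [A1, A2, ← Equiv.sum_comp N]
      apply Finset.sum_congr rfl
      intro p _
      apply ind_congr
      have hR : R q (N p).1 (N p).2 ↔ R q p.1 p.2 := by
        constructor
        · rintro ⟨h, h'⟩
          exact ⟨(hN p).1 h, by rw [← h']; exact (hmkN p).symm⟩
        · rintro ⟨h, h'⟩
          exact ⟨(hN p).2 h, by rw [← h']; exact hmkN p⟩
      constructor
      · rintro ⟨h, h'⟩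
        have h3 := hR.1 h
        exact ⟨h3, by rw [← h', h1 p h3.1]⟩
      · rintro ⟨h, h'⟩
        exact ⟨hR.2 h, by rw [← h', h1 p h.1]⟩
  choose C hC1 hC2 using hex
  haveI : Fintype Q := Fintype.ofFinite Q
  refine ⟨(Finset.univ : Finset Q).toList.flatMap C, ?_, ?_⟩
  · intro c hc
    obtain ⟨q, _, hq⟩ := List.mem_flatMap.1 hc
    exact hC1 q c hq
  · intro u v
    rw [tot_flatMap, Finset.sum_map_toList]
    simp only [hC2]
    rw [Finset.sum_eq_single (mk (u, v))]
    · exact ind_congr ⟨fun h => h.1, fun h => ⟨h, rfl⟩⟩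
    · intro q _ hq
      exact ind_neg (fun h => hq h.2.symm)
    · intro h; exact absurd (mem_univ _) h

end Pool.Agent.Q110.OC
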