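import Pool.Agent.Q110.OC.Base
import Pool.Agent.Y408.OC.Factor

set_option autoImplicit false

/-!
Oriented cycle double covers of cubic Cayley graphs.
-/

namespace Pool.Agent.Q110.OC

open Finset
open Pool.Agent.TH505.OCDC

open scoped Classical in
theorem ocdc_of_flow {V : Type} [Fintype V] (G : SimpleGraph V)
    (h3 : ∀ v, (G.neighborSet v).ncard = 3) (φ : Sym2 V → ZMod 2 × ZMod 2)
    (hφ : ∀ v, ∑ w, (if G.Adj v w then φ s(v, w) else 0) = 0)
    (hne : ∀ u v, G.Adj u v → φ s(u, v) ≠ 0) : Ocdc G := by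
  obtain ⟨C, c1, _, c3⟩ := Pool.Agent.Y408.OC.many_short_circuits G h3 0 (fun i => i.elim0)
    (fun i => i.elim0) (fun i => i.elim0) (fun i => i.elim0) (fun i => i.elim0)
    (Or.inl ⟨φ, hφ, fun u v h _ => hne u v h⟩)
  refine ⟨(Finset.univ : Finset (Fin 5)).toList.flatMap C, ?_, ?_⟩
  · intro c hc
    obtain ⟨q, _, hq⟩ := List.mem_flatMap.1 hc
    exact c1 q c hq
  · intro u v huv
    rw [tot_flatMap, Finset.sum_map_toList]
    exact c3 u v huv

variable {Γ : Type} [Group Γ]

/-- the Cayley graph of `Γ` with connection set `T` -/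
def Cay (T : Set Γ) (h1 : (1 : Γ) ∉ T) (hi : ∀ t ∈ T, t⁻¹ ∈ T) : SimpleGraph Γ where
  Adj x y := x⁻¹ * y ∈ T
  symm := ⟨by
    intro x y h
    have := hi _ h
    rwa [mul_inv_rev, inv_inv] at this⟩
  loopless := ⟨by
    intro x h
    rw [inv_mul_cancel] at h
    exact h1 h⟩

lemma cay_adj {T : Set Γ} {h1 : (1 : Γ) ∉ T} {hi : ∀ t ∈ T, t⁻¹ ∈ T} {x y : Γ} :
    (Cay T h1 hi).Adj x y ↔ x⁻¹ * y ∈ T := Iff.rfl

open scoped Classical in
lemma sum3 {M : Type} [AddCommMonoid M] [Fintype Γ] {a b c : Γ} (hab : a ≠ b) (hac : a ≠ c)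
    (hbc : b ≠ c) (g : Γ → M) :
    ∑ t, (if t ∈ ({a, b, c} : Set Γ) then g t else 0) = g a + g b + g c := by
  rw [← Finset.sum_filter]
  have : (univ.filter (fun t => t ∈ ({a, b, c} : Set Γ))) = {a, b, c} := by
    ext t; simp
  rw [this, Finset.sum_insert (by simp [hab, hac]), Finset.sum_insert (by simp [hbc]),
    Finset.sum_singleton, add_assoc]

lemma cay_three {a b c : Γ} (hab : a ≠ b) (hac : a ≠ c) (hbc : b ≠ c)
    (h1 : (1 : Γ) ∉ ({a, b, c} : Set Γ)) (hi : ∀ t ∈ ({a, b, c} : Set Γ), t⁻¹ ∈ ({a, b, c} : Set Γ))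
    (v : Γ) : ((Cay _ h1 hi).neighborSet v).ncard = 3 := by
  have : (Cay _ h1 hi).neighborSet v = (fun t => v * t) '' ({a, b, c} : Set Γ) := by
    ext w
    rw [SimpleGraph.mem_neighborSet, cay_adj, Set.mem_image]
    constructor
    · intro h
      exact ⟨_, h, by rw [mul_inv_cancel_left]⟩
    · rintro ⟨t, ht, rfl⟩
      rw [inv_mul_cancel_left]
      exact ht
  rw [this, Set.ncard_image_of_injective _ (mul_right_injective v)]
  exact Set.ncard_eq_three.2 ⟨a, b, c, hab, hac, hbc, rfl⟩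

open scoped Classical in
/-- A criterion for Cayley graphs with three generators. -/
theorem cay_flow [Fintype Γ] {a b c : Γ} (hab : a ≠ b) (hac : a ≠ c) (hbc : b ≠ c)
    (h1 : (1 : Γ) ∉ ({a, b, c} : Set Γ)) (hi : ∀ t ∈ ({a, b, c} : Set Γ), t⁻¹ ∈ ({a, b, c} : Set Γ))
    (F : Γ → Γ → ZMod 2 × ZMod 2) (hF : ∀ x y, F x y = F y x)
    (hs : ∀ v, F v (v * a) + F v (v * b) + F v (v * c) = 0)
    (hne : ∀ v, F v (v * a) ≠ 0 ∧ F v (v * b) ≠ 0 ∧ F v (v * c) ≠ 0) :
    Ocdc (Cay _ h1 hi) := by
  apply ocdc_of_flow _ (cay_three hab hac hbc h1 hi) (Sym2.lift ⟨F, hF⟩)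
  · intro v
    rw [← Equiv.sum_comp (Equiv.mulLeft v)]
    refine (Finset.sum_congr rfl ?_).trans ((sum3 hab hac hbc (fun t => F v (v * t))).trans (hs v))
    intro t _
    have : (Cay _ h1 hi).Adj v (Equiv.mulLeft v t) ↔ t ∈ ({a, b, c} : Set Γ) := by
      rw [cay_adj, Equiv.coe_mulLeft, inv_mul_cancel_left]
    by_cases ht : t ∈ ({a, b, c} : Set Γ)
    · rw [if_pos (this.2 ht), if_pos ht]; rfl
    · rw [if_neg (fun h => ht (this.1 h)), if_neg ht]
  · intro u v huv
    rw [cay_adj] at huv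
    have hv : v = u * (u⁻¹ * v) := by rw [mul_inv_cancel_left]
    obtain ⟨n1, n2, n3⟩ := hne u
    show F u v ≠ 0
    rcases huv with h | h | h
    · rw [hv, h]; exact n1
    · rw [hv, h]; exact n2
    · rw [hv, Set.mem_singleton_iff.1 h]; exact n3

open scoped Classical in
/-- three involutions -/
theorem cay_inv [Fintype Γ] {a b c : Γ} (hab : a ≠ b) (hac : a ≠ c) (hbc : b ≠ c)
    (ha : a⁻¹ = a) (hb : b⁻¹ = b) (hc : c⁻¹ = c)
    (h1 : (1 : Γ) ∉ ({a, b, c} : Set Γ)) (hi : ∀ t ∈ ({a, b, c} : Set Γ), t⁻¹ ∈ ({a, b, c} : Set Γ)) :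
    Ocdc (Cay _ h1 hi) := by
  let col : Γ → ZMod 2 × ZMod 2 := fun t =>
    if t = a then (1, 0) else if t = b then (0, 1) else if t = c then (1, 1) else 0
  have hcol : ∀ t, col t⁻¹ = col t := by
    intro t
    have e1 : t⁻¹ = a ↔ t = a := by rw [inv_eq_iff_eq_inv, ha]
    have e2 : t⁻¹ = b ↔ t = b := by rw [inv_eq_iff_eq_inv, hb]
    have e3 : t⁻¹ = c ↔ t = c := by rw [inv_eq_iff_eq_inv, hc]
    simp only [col, e1, e2, e3]
  have ca : col a = (1, 0) := by simp [col]
  have cb : col b = (0, 1) := by simp [col, hab.symm]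
  have cc : col c = (1, 1) := by simp [col, hac.symm, hbc.symm]
  apply cay_flow hab hac hbc h1 hi (fun x y => col (x⁻¹ * y))
  · intro x y
    show col (x⁻¹ * y) = col (y⁻¹ * x)
    rw [← hcol (x⁻¹ * y), mul_inv_rev, inv_inv]
  · intro v
    simp only [inv_mul_cancel_left, ca, cb, cc]
    decide
  · intro v
    simp only [inv_mul_cancel_left, ca, cb, cc]
    decide

/-- three nonzero colours -/
def kap : Fin 3 → ZMod 2 × ZMod 2 := ![(1, 0), (0, 1), (1, 1)]

lemma kap1 : ∀ i : Fin 3, kap i ≠ 0 := by decide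
lemma kap2 : ∀ i j : Fin 3, i ≠ j → kap i + kap j ≠ 0 := by decide
lemma kap3 : ∀ i j : Fin 3, (kap i + kap j) + kap i + kap j = 0 := by decide
lemma third : ∀ i j : Fin 3, ∃ k : Fin 3, k ≠ i ∧ k ≠ j := by decide

open scoped Classical in
/-- a three-colouring of the cosets of a central involution, proper along `s` -/
theorem exists_col [Fintype Γ] {a s : Γ} (ha : a * a = 1) (has : a * s = s * a) (hs1 : s ≠ 1)
    (hsa : s ≠ a) : ∃ α : Γ → Fin 3, (∀ x, α (x * a) = α x) ∧ ∀ x, α (x * s) ≠ α x := by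
  have hne : ((univ : Finset (Γ → Fin 3)).filter (fun α => ∀ x, α (x * a) = α x)).Nonempty :=
    ⟨fun _ => 0, by simp⟩
  obtain ⟨α, hα, hmin⟩ := Finset.exists_min_image _
    (fun α : Γ → Fin 3 => ((univ : Finset Γ).filter (fun x => α (x * s) = α x)).card) hne
  have hα' : ∀ x, α (x * a) = α x := (mem_filter.1 hα).2
  refine ⟨α, hα', ?_⟩
  intro x hx
  obtain ⟨k, hk1, hk2⟩ := third (α (x * s)) (α (x * s⁻¹))
  let β : Γ → Fin 3 := fun y => if y = x ∨ y = x * a then k else α y
  have haa : ∀ y, y * a * a = y := fun y => by rw [mul_assoc, ha, mul_one]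
  have hβ : ∀ y, β (y * a) = β y := by
    intro y
    have e : (y * a = x ∨ y * a = x * a) ↔ (y = x ∨ y = x * a) := by
      constructor
      · rintro (h | h)
        · right; rw [← h, haa]
        · left; exact mul_right_cancel h
      · rintro (h | h)
        · right; rw [h]
        · left; rw [h, haa]
    by_cases h : y = x ∨ y = x * a
    · simp only [β]
      rw [if_pos h, if_pos (e.2 h)]
    · simp only [β]
      rw [if_neg h, if_neg (fun h' => h (e.1 h')), hα']
  have hβm : β ∈ (univ : Finset (Γ → Fin 3)).filter (fun α => ∀ x, α (x * a) = α x) := by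
    simp only [mem_filter, mem_univ, true_and]
    exact hβ
  have h1 := hmin β hβm
  have hsub : ((univ : Finset Γ).filter (fun x => β (x * s) = β x)) ⊂
      ((univ : Finset Γ).filter (fun x => α (x * s) = α x)) := by
    have hcls : ∀ y, (y = x ∨ y = x * a) → ¬ (y * s = x ∨ y * s = x * a) ∧
        α (y * s) = α (x * s) := by
      rintro y (rfl | rfl)
      · refine ⟨?_, rfl⟩
        rintro (h | h)
        · exact hs1 (by simpa using h)
        · exact hsa (mul_left_cancel h)
      · refine ⟨?_, ?_⟩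
        · rintro (h | h)
          · apply hsa
            have h2 : x * (a * s) = x * 1 := by rw [← mul_assoc, h, mul_one]
            have h3 := mul_left_cancel h2
            calc s = a * (a * s) := by rw [← mul_assoc, ha, one_mul]
              _ = a := by rw [h3, mul_one]
          · have h2 : x * a * s = x * a * 1 := by rw [h, mul_one]
            exact hs1 (mul_left_cancel h2)
        · rw [mul_assoc, has, ← mul_assoc, hα']
    have hcls2 : ∀ y, (y * s = x ∨ y * s = x * a) → ¬ (y = x ∨ y = x * a) ∧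
        α y = α (x * s⁻¹) := by
      intro y hy
      refine ⟨fun h => (hcls y h).1 hy, ?_⟩
      rcases hy with h | h
      · rw [← h, mul_inv_cancel_right]
      · have : y = x * s⁻¹ * a := by
          have hc : s⁻¹ * a = a * s⁻¹ := by
            rw [inv_mul_eq_iff_eq_mul, ← mul_assoc, ← has, mul_inv_cancel_right]
          rw [mul_assoc, hc, ← mul_assoc, ← h, mul_inv_cancel_right]
        rw [this, hα']
    rw [Finset.ssubset_iff_of_subset]
    · refine ⟨x, by simp [hx], ?_⟩
      simp only [mem_filter, mem_univ, true_and]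
      intro h
      have h2 := hcls x (Or.inl rfl)
      simp only [β] at h
      rw [if_neg h2.1, if_pos (Or.inl trivial)] at h
      exact hk1 h.symm
    · intro y hy
      simp only [mem_filter, mem_univ, true_and] at hy ⊢
      by_cases hy1 : y = x ∨ y = x * a
      · exfalso
        have h2 := hcls y hy1
        simp only [β] at hy
        rw [if_neg h2.1, if_pos hy1, h2.2] at hy
        exact hk1 hy.symm
      · by_cases hy2 : y * s = x ∨ y * s = x * a
        · exfalso
          have h2 := hcls2 y hy2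
          simp only [β] at hy
          rw [if_pos hy2, if_neg hy1, h2.2] at hy
          exact hk2 hy
        · simp only [β] at hy
          rwa [if_neg hy2, if_neg hy1] at hy
  exact absurd h1 (not_le.2 (Finset.card_lt_card hsub))

open scoped Classical in
/-- one involution and one commuting generator of order at least three -/
theorem cay_comm [Fintype Γ] {a s : Γ} (ha : a⁻¹ = a) (has : a * s = s * a)
    (hs : s⁻¹ ≠ s) (h1 : (1 : Γ) ∉ ({a, s, s⁻¹} : Set Γ))
    (hi : ∀ t ∈ ({a, s, s⁻¹} : Set Γ), t⁻¹ ∈ ({a, s, s⁻¹} : Set Γ)) :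
    Ocdc (Cay _ h1 hi) := by
  have hsa : s ≠ a := fun h => hs (by rw [h, ha])
  have hsa' : s⁻¹ ≠ a := fun h => hsa (by rw [← inv_inv s, h, ha])
  have hs1 : s ≠ 1 := fun h => hs (by rw [h, inv_one])
  have haa : a * a = 1 := by
    nth_rewrite 1 [← ha]
    exact inv_mul_cancel a
  obtain ⟨α, h2, h3⟩ := exists_col haa has hs1 hsa
  have h3' : ∀ x, α x ≠ α (x * s⁻¹) := by
    intro x
    have := h3 (x * s⁻¹)
    rwa [inv_mul_cancel_right] at this
  have hc : a * s⁻¹ = s⁻¹ * a := by
    rw [eq_inv_mul_iff_mul_eq, ← mul_assoc, ← has, mul_inv_cancel_right]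
  let F : Γ → Γ → ZMod 2 × ZMod 2 := fun x y =>
    if x⁻¹ * y = s then kap (α x) else if x⁻¹ * y = s⁻¹ then kap (α y) else
    if x⁻¹ * y = a then kap (α x) + kap (α (x * s⁻¹)) else 0
  have hinv : ∀ x y : Γ, y⁻¹ * x = (x⁻¹ * y)⁻¹ := fun x y => by rw [mul_inv_rev, inv_inv]
  have hF : ∀ x y, F x y = F y x := by
    intro x y
    by_cases e1 : x⁻¹ * y = s
    · have e2 : y⁻¹ * x = s⁻¹ := by rw [hinv, e1]
      simp only [F]
      rw [if_pos e1, if_neg (by rw [e2]; exact hs), if_pos e2]
    · by_cases e2 : x⁻¹ * y = s⁻¹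
      · have e3 : y⁻¹ * x = s := by rw [hinv, e2, inv_inv]
        simp only [F]
        rw [if_neg e1, if_pos e2, if_pos e3]
      · by_cases e3 : x⁻¹ * y = a
        · have e4 : y⁻¹ * x = a := by rw [hinv, e3, ha]
          have ey : y = x * a := by rw [← e3, mul_inv_cancel_left]
          simp only [F]
          rw [if_neg e1, if_neg e2, if_pos e3, if_neg (by rw [e4]; exact hsa.symm),
            if_neg (by rw [e4]; exact hsa'.symm), if_pos e4, ey, h2, mul_assoc, hc, ← mul_assoc, h2]
        · have f1 : ¬ y⁻¹ * x = s := fun h => e2 (by rw [hinv, h])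
          have f2 : ¬ y⁻¹ * x = s⁻¹ := fun h => e1 (by rw [hinv, h, inv_inv])
          have f3 : ¬ y⁻¹ * x = a := fun h => e3 (by rw [hinv, h, ha])
          simp only [F]
          rw [if_neg e1, if_neg e2, if_neg e3, if_neg f1, if_neg f2, if_neg f3]
  have Fa : ∀ v, F v (v * a) = kap (α v) + kap (α (v * s⁻¹)) := by
    intro v
    simp only [F, inv_mul_cancel_left]
    rw [if_neg hsa.symm, if_neg hsa'.symm, if_pos trivial]
  have Fs : ∀ v, F v (v * s) = kap (α v) := by
    intro v
    simp only [F, inv_mul_cancel_left]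
    rw [if_pos trivial]
  have Fs' : ∀ v, F v (v * s⁻¹) = kap (α (v * s⁻¹)) := by
    intro v
    simp only [F, inv_mul_cancel_left]
    rw [if_neg hs, if_pos trivial]
  apply cay_flow hsa.symm hsa'.symm hs.symm h1 hi F hF
  · intro v
    rw [Fa, Fs, Fs']
    exact kap3 _ _
  · intro v
    rw [Fa, Fs, Fs']
    exact ⟨kap2 _ _ (h3' v), kap1 _, kap1 _⟩

open scoped Classical in
/-- one involution and one generator of order at least three which do not commute -/
theorem cay_face [Fintype Γ] {a s : Γ} (ha : a⁻¹ = a) (has : a * s ≠ s * a)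
    (hs : s⁻¹ ≠ s) (h1 : (1 : Γ) ∉ ({a, s, s⁻¹} : Set Γ))
    (hi : ∀ t ∈ ({a, s, s⁻¹} : Set Γ), t⁻¹ ∈ ({a, s, s⁻¹} : Set Γ)) :
    Ocdc (Cay _ h1 hi) := by
  have hsa : s ≠ a := fun h => has (by rw [h])
  have hsa' : s⁻¹ ≠ a := fun h => hsa (by rw [← inv_inv s, h, ha])
  let ρ : Equiv.Perm Γ := Equiv.swap s⁻¹ a
  have ρs : ρ s = s := Equiv.swap_apply_of_ne_of_ne hs.symm hsa
  have ρs' : ρ s⁻¹ = a := Equiv.swap_apply_left _ _
  have ρa : ρ a = s⁻¹ := Equiv.swap_apply_right _ _
  have ρr : ∀ t, t ≠ s⁻¹ → t ≠ a → ρ t = t := fun t h h' => Equiv.swap_apply_of_ne_of_ne h h'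
  let N : Equiv.Perm (Γ × Γ) :=
    { toFun := fun p => (p.2, p.2 * ρ (p.1⁻¹ * p.2))
      invFun := fun p => (p.1 * (ρ.symm (p.1⁻¹ * p.2))⁻¹, p.1)
      left_inv := by
        rintro ⟨x, y⟩
        simp
      right_inv := by
        rintro ⟨x, y⟩
        simp }
  have hN1 : ∀ p, (N p).1 = p.2 := fun p => rfl
  have hNl : ∀ p, (N p).1⁻¹ * (N p).2 = ρ (p.1⁻¹ * p.2) := by
    intro p
    show p.2⁻¹ * (p.2 * ρ (p.1⁻¹ * p.2)) = _
    rw [inv_mul_cancel_left]
  have hρT : ∀ t, ρ t ∈ ({a, s, s⁻¹} : Set Γ) ↔ t ∈ ({a, s, s⁻¹} : Set Γ) := by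
    intro t
    by_cases e1 : t = s⁻¹
    · rw [e1, ρs']; simp
    · by_cases e2 : t = a
      · rw [e2, ρa]; simp
      · rw [ρr t e1 e2]
  let w : Γ := s⁻¹ * a
  have hw : ∀ k : Γ, k ∈ Subgroup.zpowers w → k * w ∈ Subgroup.zpowers w := fun k hk =>
    Subgroup.mul_mem _ hk (Subgroup.mem_zpowers w)
  have hsw : s ∉ Subgroup.zpowers w := by
    intro h
    have h' : s * w ∈ Subgroup.zpowers w := hw s h
    have e : s * w = a := by
      show s * (s⁻¹ * a) = a
      rw [mul_inv_cancel_left]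
    rw [e] at h'
    obtain ⟨i, hi'⟩ := h
    obtain ⟨j, hj⟩ := h'
    apply has
    rw [← hi', ← hj]
    exact (Commute.zpow_zpow_self w j i)
  have hO : ∀ u v : Γ, u⁻¹ * v ∈ ({a, s, s⁻¹} : Set Γ) → (Cay _ h1 hi).Adj u v := fun u v h => h
  obtain ⟨C, c1, c2⟩ := face (G := Cay _ h1 hi) (fun u v => u⁻¹ * v ∈ ({a, s, s⁻¹} : Set Γ)) N hO
    (fun p => by rw [hNl]; exact hρT _) (fun p _ => hN1 p) (by
      rintro ⟨x, y⟩ hxy
      have hsw' : ((x, y) : Γ × Γ).swap = (y, x) := rfl
      rw [hsw']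
      rcases hxy with e | e | e
      · -- label `a`
        simp only at e
        have ey : y = x * a := by rw [← e, mul_inv_cancel_left]
        subst ey
        refine ⟨fun q => (q.1⁻¹ * q.2 = s⁻¹ ∧ (x * s)⁻¹ * q.1 ∈ Subgroup.zpowers w) ∨
          (q.1⁻¹ * q.2 = a ∧ (x * s)⁻¹ * (q.1 * s) ∈ Subgroup.zpowers w), ?_, ?_, ?_⟩
        · intro q
          obtain ⟨y, z⟩ := q
          simp only [hNl]
          simp only [hN1]
          constructor
          · rintro (⟨h2, h3⟩ | ⟨h2, h3⟩)
            · -- ρ l = s⁻¹ so l = a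
              have hl : y⁻¹ * z = a := ρ.injective (by rw [h2, ρa])
              right
              refine ⟨hl, ?_⟩
              have ez : z = y * a := by rw [← hl, mul_inv_cancel_left]
              have : (x * s)⁻¹ * (y * s) = (x * s)⁻¹ * z * w⁻¹ := by
                simp only [w, ez, mul_inv_rev, inv_inv, ha]
                have haa : a * a = 1 := by
                  nth_rewrite 1 [← ha]; exact inv_mul_cancel a
                simp only [mul_assoc]
                rw [← mul_assoc a a s, haa, one_mul]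
              rw [this]
              exact Subgroup.mul_mem _ h3 (Subgroup.inv_mem _ (Subgroup.mem_zpowers w))
            · have hl : y⁻¹ * z = s⁻¹ := ρ.injective (by rw [h2, ρs'])
              left
              refine ⟨hl, ?_⟩
              have ez : z = y * s⁻¹ := by rw [← hl, mul_inv_cancel_left]
              rw [ez, inv_mul_cancel_right] at h3
              exact h3
          · rintro (⟨h2, h3⟩ | ⟨h2, h3⟩)
            · right
              refine ⟨by rw [h2, ρs'], ?_⟩
              have ez : z = y * s⁻¹ := by rw [← h2, mul_inv_cancel_left]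
              rw [ez, inv_mul_cancel_right]
              exact h3
            · left
              refine ⟨by rw [h2, ρa], ?_⟩
              have ez : z = y * a := by rw [← h2, mul_inv_cancel_left]
              have : (x * s)⁻¹ * z = (x * s)⁻¹ * (y * s) * w := by
                simp only [w, ez]
                simp only [mul_assoc, mul_inv_cancel_left]
              rw [this]
              exact hw _ h3
        · right
          exact ⟨by simp, by simp⟩
        · rintro (⟨h2, _⟩ | ⟨_, h3⟩)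
          · simp only [mul_inv_rev, inv_mul_cancel_right, ha] at h2
            exact hsa'.symm h2
          · apply hsw
            have haa : a * a = 1 := by
              nth_rewrite 1 [← ha]; exact inv_mul_cancel a
            have : s = w⁻¹ * ((x * s)⁻¹ * (x * a * s)) := by
              simp only [w, mul_inv_rev, inv_inv, ha, mul_assoc, inv_mul_cancel_left,
                mul_inv_cancel_left]
              rw [← mul_assoc, haa, one_mul]
            rw [this]
            exact Subgroup.mul_mem _ (Subgroup.inv_mem _ (Subgroup.mem_zpowers w)) h3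
      · -- label `s`
        simp only at e
        refine ⟨fun q => q.1⁻¹ * q.2 = s, ?_, e, ?_⟩
        · intro q
          simp only [hNl]
          constructor
          · intro h; exact ρ.injective (by rw [h, ρs])
          · intro h; rw [h, ρs]
        · intro h
          simp only at h
          have : y⁻¹ * x = s⁻¹ := by rw [← e, mul_inv_rev, inv_inv]
          rw [this] at h
          exact hs h
      · -- label `s⁻¹`
        have e : x⁻¹ * y = s⁻¹ := e
        refine ⟨fun q => q.1⁻¹ * q.2 = s⁻¹ ∨ q.1⁻¹ * q.2 = a, ?_, Or.inl e, ?_⟩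
        · intro q
          simp only [hNl]
          constructor
          · rintro (h | h)
            · right; exact ρ.injective (by rw [h, ρa])
            · left; exact ρ.injective (by rw [h, ρs'])
          · rintro (h | h)
            · right; rw [h, ρs']
            · left; rw [h, ρa]
        · have : y⁻¹ * x = s := by rw [← inv_inv s, ← e, mul_inv_rev, inv_inv]
          rintro (h | h)
          · simp only at h
            rw [this] at h
            exact hs h.symm
          · simp only at h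
            rw [this] at h
            exact hsa h)
  exact ⟨C, c1, fun u v h => by rw [c2]; exact ind_pos h⟩

open scoped Classical in
/-- Every Cayley graph of odd degree at least three contains a cubic Cayley graph with an oriented
cycle double cover. -/
theorem cay_main [Fintype Γ] (S : Set Γ) (h1 : (1 : Γ) ∉ S) (hi : ∀ s ∈ S, s⁻¹ ∈ S)
    (hodd : Odd S.ncard) (hne : S.ncard ≠ 1) :
    ∃ (T : Set Γ) (h1' : (1 : Γ) ∉ T) (hi' : ∀ s ∈ T, s⁻¹ ∈ T), T ⊆ S ∧ T.ncard = 3 ∧
      Ocdc (Cay T h1' hi') := by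
  let f : Function.End S := fun t => ⟨t.1⁻¹, hi _ t.2⟩
  have hf2 : f ^ 2 ^ 1 = 1 := by
    funext t
    apply Subtype.ext
    show (t.1⁻¹)⁻¹ = t.1
    exact inv_inv _
  haveI : Fact (Nat.Prime 2) := ⟨Nat.prime_two⟩
  have hmod := Equiv.Perm.card_fixedPoints_modEq (f := f) (p := 2) (n := 1) hf2
  have hcS : Fintype.card S = S.ncard := by
    rw [← Nat.card_eq_fintype_card]; rfl
  rw [hcS] at hmod
  have hoddF : Odd (Fintype.card (Function.fixedPoints f)) := by
    rw [Nat.odd_iff] at hodd ⊢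
    rw [← hmod]
    exact hodd
  have hfix : ∀ t : Function.fixedPoints f, (t.1.1 : Γ)⁻¹ = t.1.1 := by
    intro t
    have := t.2
    exact congrArg Subtype.val this
  have hpos : 0 < Fintype.card (Function.fixedPoints f) := hoddF.pos
  obtain ⟨⟨⟨a, haS⟩, haf⟩⟩ := Fintype.card_pos_iff.1 hpos
  have ha : a⁻¹ = a := hfix ⟨⟨a, haS⟩, haf⟩
  have ne1 : ∀ t ∈ S, t ≠ 1 := fun t ht h => h1 (h ▸ ht)
  by_cases hc : Fintype.card (Function.fixedPoints f) = 1
  · -- one involution
    have hun : ∀ t ∈ S, t⁻¹ = t → t = a := by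
      intro t ht htt
      have h2 := Fintype.card_le_one_iff.1 hc.le ⟨⟨t, ht⟩, Subtype.ext htt⟩ ⟨⟨a, haS⟩, haf⟩
      exact congrArg (fun z => (z.1.1 : Γ)) h2
    have hex : ∃ s ∈ S, s ≠ a := by
      by_contra hcon
      push Not at hcon
      apply hne
      rw [Set.ncard_eq_one]
      exact ⟨a, Set.eq_singleton_iff_unique_mem.2 ⟨haS, hcon⟩⟩
    obtain ⟨s, hsS, hsa⟩ := hex
    have hs : s⁻¹ ≠ s := fun h => hsa (hun s hsS h)
    have hsa' : s⁻¹ ≠ a := fun h => hsa (by rw [← inv_inv s, h, ha])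
    have hT1 : (1 : Γ) ∉ ({a, s, s⁻¹} : Set Γ) := by
      rintro (h | h | h)
      · exact ne1 a haS h.symm
      · exact ne1 s hsS h.symm
      · exact ne1 _ (hi s hsS) h.symm
    have hTi : ∀ t ∈ ({a, s, s⁻¹} : Set Γ), t⁻¹ ∈ ({a, s, s⁻¹} : Set Γ) := by
      rintro t (rfl | rfl | h)
      · rw [ha]; simp
      · simp
      · rw [Set.mem_singleton_iff.1 h, inv_inv]; simp
    refine ⟨{a, s, s⁻¹}, hT1, hTi, ?_, ?_, ?_⟩
    · rintro t (rfl | rfl | h)
      · exact haS
      · exact hsS
      · rw [Set.mem_singleton_iff.1 h]; exact hi s hsS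
    · exact Set.ncard_eq_three.2 ⟨a, s, s⁻¹, hsa.symm, hsa'.symm, hs.symm, rfl⟩
    · by_cases has : a * s = s * a
      · exact cay_comm ha has hs hT1 hTi
      · exact cay_face ha has hs hT1 hTi
  · have h2 : 2 < Fintype.card (Function.fixedPoints f) := by
      obtain ⟨k, hk⟩ := hoddF
      omega
    obtain ⟨x, y, z, hxy, hxz, hyz⟩ := Fintype.two_lt_card_iff.1 h2
    have inj : ∀ p q : Function.fixedPoints f, p ≠ q → (p.1.1 : Γ) ≠ q.1.1 := fun p q h h' =>
      h (Subtype.ext (Subtype.ext h'))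
    have hT1 : (1 : Γ) ∉ ({x.1.1, y.1.1, z.1.1} : Set Γ) := by
      rintro (h | h | h)
      · exact ne1 _ x.1.2 h.symm
      · exact ne1 _ y.1.2 h.symm
      · exact ne1 _ z.1.2 (Set.mem_singleton_iff.1 h).symm
    have hTi : ∀ t ∈ ({x.1.1, y.1.1, z.1.1} : Set Γ), t⁻¹ ∈ ({x.1.1, y.1.1, z.1.1} : Set Γ) := by
      rintro t (rfl | rfl | h)
      · rw [hfix]; simp
      · rw [hfix]; simp
      · rw [Set.mem_singleton_iff.1 h, hfix]; simp
    refine ⟨{x.1.1, y.1.1, z.1.1}, hT1, hTi, ?_, ?_, ?_⟩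
    · rintro t (rfl | rfl | h)
      · exact x.1.2
      · exact y.1.2
      · rw [Set.mem_singleton_iff.1 h]; exact z.1.2
    · exact Set.ncard_eq_three.2 ⟨_, _, _, inj _ _ hxy, inj _ _ hxz, inj _ _ hyz, rfl⟩
    · exact cay_inv (inj _ _ hxy) (inj _ _ hxz) (inj _ _ hyz) (hfix x) (hfix y) (hfix z) hT1 hTi

end Pool.Agent.Q110.OC
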