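import Pool.Agent.Q110.OC.Arc

set_option autoImplicit false

/-!
Oriented cycle double covers of graphs with a vertex-transitive group acting semiregularly on
the arcs.
-/

namespace Pool.Agent.Q110.OC

open Finset
open Pool.Agent.TH505.OCDC

variable {V : Type} [Fintype V]

/-- Adding an even graph. -/
theorem ocdc_of_le {G K : SimpleGraph V} (hK : K ≤ G) (oK : Ocdc K)
    (hpar : ∀ v, Even (dg G.Adj v + dg K.Adj v)) : Ocdc G := by
  have hsplit : ∀ u v, ind (G.Adj u v) = ind (K.Adj u v) + ind ((G \ K).Adj u v) := by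
    intro u v
    by_cases h : G.Adj u v
    · by_cases h' : K.Adj u v
      · rw [ind_pos h, ind_pos h', ind_neg]
        rw [SimpleGraph.sdiff_adj]
        exact fun h2 => h2.2 h'
      · rw [ind_pos h, ind_neg h', ind_pos]
        rw [SimpleGraph.sdiff_adj]
        exact ⟨h, h'⟩
    · rw [ind_neg h, ind_neg (fun h' => h (hK h')), ind_neg]
      rw [SimpleGraph.sdiff_adj]
      exact fun h2 => h h2.1
  have oD : Ocdc (G \ K) := by
    apply Ocdc.even
    intro v
    have h1 := hpar v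
    have h2 : dg G.Adj v = dg K.Adj v + ∑ w, ind ((G \ K).Adj v w) := by
      unfold dg
      rw [← Finset.sum_add_distrib]
      exact Finset.sum_congr rfl (fun w _ => hsplit v w)
    rw [h2] at h1
    rw [Nat.even_iff] at h1 ⊢
    omega
  refine Ocdc.union hK (sdiff_le : G \ K ≤ G) ?_ oK oD
  intro u v huv
  by_cases h : K.Adj u v
  · left
    exact ⟨h, fun h' => h'.2 h⟩
  · right
    exact ⟨h, huv, h⟩

/-- Stabilisers are of odd order. -/
theorem odd_orb (H : SimpleGraph V) (A : Subgroup (Equiv.Perm V))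
    (hA : ∀ σ ∈ A, ∀ u v, H.Adj u v → H.Adj (σ u) (σ v)) (htr : ∀ u v, ∃ σ ∈ A, σ u = v)
    (hsr : ∀ σ ∈ A, ∀ u v, H.Adj u v → σ u = u → σ v = v → σ = 1)
    (v0 u : V) (hodd : Odd (dg H.Adj v0)) (hadj : H.Adj v0 u) (hne : u ≠ v0)
    (ht : ∃ t ∈ A, t v0 = u ∧ t u = v0) (x : V) : Odd (dg (Orb A u v0 hne ht).Adj x) := by
  classical
  have hinv : ∀ σ ∈ A, ∀ x y, (Orb A u v0 hne ht).Adj (σ x) (σ y) ↔ (Orb A u v0 hne ht).Adj x y := by
    intro σ hσ x y
    constructor
    · rintro ⟨τ, hτ, h1, h2⟩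
      exact ⟨σ⁻¹ * τ, A.mul_mem (A.inv_mem hσ) hτ, by rw [Equiv.Perm.mul_apply, h1]; simp,
        by rw [Equiv.Perm.mul_apply, h2]; simp⟩
    · rintro ⟨τ, hτ, h1, h2⟩
      exact ⟨σ * τ, A.mul_mem hσ hτ, by rw [Equiv.Perm.mul_apply, h1],
        by rw [Equiv.Perm.mul_apply, h2]⟩
  obtain ⟨σ, hσ, hx⟩ := htr v0 x
  rw [← hx, dg_inv _ σ (hinv σ hσ)]
  let B : Subgroup (Equiv.Perm V) := A ⊓ MulAction.stabilizer (Equiv.Perm V) v0
  have hB : ∀ b : Equiv.Perm V, b ∈ B ↔ b ∈ A ∧ b v0 = v0 := by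
    intro b
    rw [Subgroup.mem_inf, MulAction.mem_stabilizer_iff]
    rfl
  have hcard : dg (Orb A u v0 hne ht).Adj v0 = Nat.card B := by
    unfold dg
    rw [sum_ind_card]
    symm
    apply Nat.card_congr
    refine Equiv.ofBijective (fun b => ⟨b.1 u, ?_⟩) ⟨?_, ?_⟩
    · have hb := (hB b.1).1 b.2
      exact (Orb A u v0 hne ht).adj_symm (⟨b.1, hb.1, rfl, hb.2⟩ : (Orb A u v0 hne ht).Adj (b.1 u) v0)
    · intro b c hbc
      have h1 : b.1 u = c.1 u := congrArg Subtype.val hbc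
      have hb := (hB b.1).1 b.2
      have hc := (hB c.1).1 c.2
      have := hsr (c.1⁻¹ * b.1) (A.mul_mem (A.inv_mem hc.1) hb.1) v0 u hadj
        (by rw [Equiv.Perm.mul_apply, hb.2]
            nth_rewrite 1 [← hc.2]
            simp)
        (by rw [Equiv.Perm.mul_apply, h1]; simp)
      rw [inv_mul_eq_one] at this
      exact Subtype.ext this.symm
    · rintro ⟨w, hw⟩
      obtain ⟨τ, hτ, h1, h2⟩ := (Orb A u v0 hne ht).adj_symm hw
      exact ⟨⟨τ, (hB τ).2 ⟨hτ, h2⟩⟩, Subtype.ext h1⟩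
  rw [hcard]
  by_contra hev
  rw [Nat.not_odd_iff_even] at hev
  haveI : Fact (Nat.Prime 2) := ⟨Nat.prime_two⟩
  obtain ⟨τ, hτ⟩ := exists_prime_orderOf_dvd_card' (G := B) 2 hev.two_dvd
  have hτ2 : τ ^ 2 = 1 := by rw [← hτ]; exact pow_orderOf_eq_one τ
  have hτ1 : τ ≠ 1 := by
    intro h
    rw [h, orderOf_one] at hτ
    exact absurd hτ (by norm_num)
  have hτB := (hB τ.1).1 τ.2
  let f : Function.End {w // H.Adj v0 w} := fun w => ⟨τ.1 w.1, by
    have := hA τ.1 hτB.1 v0 w.1 w.2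
    rwa [hτB.2] at this⟩
  have hf2 : f ^ 2 ^ 1 = 1 := by
    funext w
    apply Subtype.ext
    show τ.1 (τ.1 w.1) = w.1
    have h3 : (τ ^ 2).1 w.1 = w.1 := by rw [hτ2]; rfl
    rw [pow_two] at h3
    exact h3
  have hmod := Equiv.Perm.card_fixedPoints_modEq (f := f) (p := 2) (n := 1) hf2
  have hcS : Fintype.card {w // H.Adj v0 w} = dg H.Adj v0 := by
    unfold dg
    rw [sum_ind_card, Nat.card_eq_fintype_card]
  rw [hcS] at hmod
  have hoddF : Odd (Fintype.card (Function.fixedPoints f)) := by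
    rw [Nat.odd_iff] at hodd ⊢
    rw [← hmod]
    exact hodd
  obtain ⟨⟨⟨z, hz⟩, hzf⟩⟩ := Fintype.card_pos_iff.1 hoddF.pos
  have hzz : τ.1 z = z := congrArg Subtype.val hzf
  exact hτ1 (Subtype.ext (hsr τ.1 hτB.1 v0 z hz hτB.2 hzz))

/-- Graphs containing a spanning graph with a vertex-transitive group acting semiregularly on its
arcs. -/
theorem main (G H : SimpleGraph V) (A : Subgroup (Equiv.Perm V)) (hHG : H ≤ G)
    (hA : ∀ σ ∈ A, ∀ u v, H.Adj u v → H.Adj (σ u) (σ v)) (htr : ∀ u v, ∃ σ ∈ A, σ u = v)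
    (hsr : ∀ σ ∈ A, ∀ u v, H.Adj u v → σ u = u → σ v = v → σ = 1)
    (hpar : ∀ v, Even (dg G.Adj v + dg H.Adj v)) (hne : ∀ v, dg H.Adj v ≠ 1) : Ocdc G := by
  classical
  by_cases hV : Nonempty V
  swap
  · exact ⟨[], by simp, fun u => (hV ⟨u⟩).elim⟩
  obtain ⟨v0⟩ := hV
  have hAiff : ∀ σ ∈ A, ∀ x y, H.Adj (σ x) (σ y) ↔ H.Adj x y := by
    intro σ hσ x y
    refine ⟨fun h => ?_, hA σ hσ x y⟩
    have := hA _ (A.inv_mem hσ) _ _ h
    simpa using this
  have hconst : ∀ x, dg H.Adj x = dg H.Adj v0 := by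
    intro x
    obtain ⟨σ, hσ, hx⟩ := htr v0 x
    rw [← hx]
    exact dg_inv _ σ (hAiff σ hσ) v0
  by_cases he : Even (dg H.Adj v0)
  · apply Ocdc.even
    intro v
    have h1 := hpar v
    rw [hconst v] at h1
    have h2 : Even (dg G.Adj v) := by
      rw [Nat.even_iff] at h1 he ⊢
      omega
    exact h2
  rw [Nat.not_even_iff_odd] at he
  -- it is enough to find a subgraph of odd degrees
  have key : ∀ K : SimpleGraph V, K ≤ H → Ocdc K → (∀ v, Odd (dg K.Adj v)) → Ocdc G := by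
    intro K hKH oK hK
    apply ocdc_of_le (hKH.trans hHG) oK
    intro v
    have h1 := hpar v
    have h2 := hK v
    rw [hconst v] at h1
    rw [Nat.odd_iff] at he h2
    rw [Nat.even_iff] at h1 ⊢
    omega
  by_cases hstab : ∃ h ∈ A, h v0 = v0 ∧ h ≠ 1
  · obtain ⟨h, hh, h0, h1⟩ := hstab
    obtain ⟨u, hadj, ht⟩ := self_paired H A hA htr v0 he
    have hu : h u ≠ u := fun h2 => h1 (hsr h hh v0 u hadj h0 h2)
    have hne' : u ≠ v0 := hadj.ne'
    apply key (Orb A u v0 hne' ht)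
    · rintro x y ⟨σ, hσ, rfl, rfl⟩
      exact hA σ hσ _ _ hadj.symm
    · exact orb_ocdc A u v0 hne' ht (fun σ hσ h2 h3 => hsr σ hσ v0 u hadj h3 h2) h hh h0 hu
    · exact odd_orb H A hA htr hsr v0 u he hadj hne' ht
  · push Not at hstab
    haveI : Fintype A := Fintype.ofFinite A
    have einj : Function.Injective (fun a : A => a.1 v0) := by
      intro a b hab
      have hab' : a.1 v0 = b.1 v0 := hab
      have := hstab (b.1⁻¹ * a.1) (A.mul_mem (A.inv_mem b.2) a.2)
        (by rw [Equiv.Perm.mul_apply, hab']; simp)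
      rw [inv_mul_eq_one] at this
      exact Subtype.ext this.symm
    have esurj : Function.Surjective (fun a : A => a.1 v0) := by
      intro v
      obtain ⟨σ, hσ, hx⟩ := htr v0 v
      exact ⟨⟨σ, hσ⟩, hx⟩
    let e : A ≃ V := Equiv.ofBijective _ ⟨einj, esurj⟩
    have he0 : ∀ a : A, e a = a.1 v0 := fun a => rfl
    let S : Set A := {a | H.Adj v0 (a.1 v0)}
    have hS1 : (1 : A) ∉ S := by
      intro h
      exact H.loopless.irrefl v0 h
    have hSi : ∀ s ∈ S, s⁻¹ ∈ S := by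
      intro s hs
      have h1 : H.Adj v0 (s.1 v0) := hs
      have h2 := hA (s.1⁻¹) (A.inv_mem s.2) _ _ h1.symm
      have h3 : s.1⁻¹ (s.1 v0) = v0 := by simp
      rw [h3] at h2
      exact h2
    have hScard : S.ncard = dg H.Adj v0 := by
      unfold dg
      rw [← Equiv.sum_comp e, sum_ind_card]
      rfl
    obtain ⟨T, hT1, hTi, hTS, hT3, oT⟩ := cay_main S hS1 hSi (by rw [hScard]; exact he)
      (by rw [hScard]; exact hne v0)
    apply key ((Cay T hT1 hTi).comap e.symm)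
    · intro x y hxy
      have h1 : (e.symm x)⁻¹ * e.symm y ∈ T := hxy
      have h2 : H.Adj v0 (((e.symm x)⁻¹ * e.symm y).1 v0) := hTS h1
      have h3 := hA (e.symm x).1 (e.symm x).2 _ _ h2
      have h4 : (e.symm x).1 v0 = x := by rw [← he0, Equiv.apply_symm_apply]
      have h5 : (e.symm x).1 (((e.symm x)⁻¹ * e.symm y).1 v0) = y := by
        rw [← Equiv.Perm.mul_apply, ← Subgroup.coe_mul, mul_inv_cancel_left, ← he0,
          Equiv.apply_symm_apply]
      rwa [h4, h5] at h3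
    · exact Ocdc.iso (SimpleGraph.Iso.comap e.symm (Cay T hT1 hTi)).symm oT
    · intro v
      have h1 : dg ((Cay T hT1 hTi).comap e.symm).Adj v = T.ncard := by
        unfold dg
        rw [← Equiv.sum_comp e, ← Equiv.sum_comp (Equiv.mulLeft (e.symm v))]
        have h2 : ∀ b : A, ind (((Cay T hT1 hTi).comap e.symm).Adj v
            (e ((Equiv.mulLeft (e.symm v)) b))) = ind (b ∈ T) := by
          intro b
          apply ind_congr
          rw [SimpleGraph.comap_adj, cay_adj, Equiv.symm_apply_apply, Equiv.coe_mulLeft,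
            inv_mul_cancel_left]
        rw [Finset.sum_congr rfl (fun b _ => h2 b), sum_ind_card]
        rfl
      rw [h1, hT3]
      exact ⟨1, rfl⟩

end Pool.Agent.Q110.OC
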